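import Mathlib

namespace Pool.Agent.Results.MP_d8de41_al.NotUi

open Filter

universe u

/-- Sequences equal to the identity on a set of the ultrafilter. -/
def nullSub (G : ℕ → Type u) [∀ i, Group (G i)] (U : Ultrafilter ℕ) : Subgroup (∀ i, G i) where
  carrier := {x | {i | x i = 1} ∈ U}
  one_mem' := mem_of_superset (univ_mem : Set.univ ∈ (U : Filter ℕ)) (fun _ _ => rfl)
  mul_mem' := by
    intro a b ha hb
    have : {i | a i = 1} ∩ {i | b i = 1} ∈ U := inter_mem ha hb
    refine mem_of_superset this ?_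
    rintro i ⟨h1, h2⟩
    simp only [Set.mem_ofPred_eq] at h1 h2
    simp [h1, h2]
  inv_mem' := by
    intro a ha
    simpa using ha

instance (G : ℕ → Type u) [∀ i, Group (G i)] (U : Ultrafilter ℕ) : (nullSub G U).Normal where
  conj_mem := by
    intro a ha g
    refine mem_of_superset (ha : {i | a i = 1} ∈ U) ?_
    intro i hi
    simp only [Set.mem_ofPred_eq] at hi
    simp [hi]

/-- `H` is a homomorphic image of a nonprincipal ultraproduct of groups over `ℕ`. -/
def IsUi (H : Type) [Group H] : Prop :=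
  ∃ (G : ℕ → Type u) (_ : ∀ i, Group (G i)) (U : Ultrafilter ℕ), (∀ a : ℕ, U ≠ pure a) ∧
    ∃ f : ((∀ i, G i) ⧸ nullSub G U) →* H, Function.Surjective f

abbrev S3 := Equiv.Perm (Fin 3)

def evc : Subgroup (ℕ → S3) where
  carrier := {x | ∃ c, ∀ᶠ j in atTop, x j = c}
  one_mem' := ⟨1, by simp⟩
  mul_mem' := by
    rintro a b ⟨c, ha⟩ ⟨d, hb⟩
    refine ⟨c * d, ?_⟩
    filter_upwards [ha, hb] with j h1 h2
    simp [h1, h2]
  inv_mem' := by
    rintro a ⟨c, ha⟩
    refine ⟨c⁻¹, ?_⟩
    filter_upwards [ha] with j h1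
    simp [h1]

def mm : S3 := Equiv.swap 0 1 * Equiv.swap 1 2
def tt : S3 := Equiv.swap 0 1

def mH : evc := ⟨fun _ => mm, mm, by simp⟩
def vH (n : ℕ) : evc := ⟨fun j => if j ≤ n then tt else 1, 1, by
  filter_upwards [eventually_gt_atTop n] with j hj
  simp [not_le.mpr hj]⟩

def back {K : Type u} [Group K] (m : K) (v : ℕ → K) (i : ℕ) : ℕ → K
  | 0 => 1
  | d + 1 => m * (back m v i d * v (i - d) * back m v i d * (v (i - d))⁻¹)⁻¹

lemma s3_pow (g : S3) : g ^ 6 = 1 := by revert g; decide +kernel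

lemma s3_a (y v : S3) : Equiv.Perm.sign (mm * (y * v * y * v⁻¹)⁻¹) = 1 := by
  revert y v; decide

lemma s3_b (y : S3) (h : Equiv.Perm.sign y = 1) : mm * (y * tt * y * tt⁻¹)⁻¹ = mm := by
  revert y; decide

lemma s3_c (y : S3) (h : Equiv.Perm.sign y = 1) : mm * (y * 1 * y * 1⁻¹)⁻¹ = mm * y := by
  revert y; decide

lemma no_sol (x : ℕ → evc) (hx : ∀ n, x n = mH * (x (n + 1) * vH n * x (n + 1) * (vH n)⁻¹)⁻¹) :
    False := by
  have hc : ∀ n j, (x n).1 j = mm * ((x (n + 1)).1 j * (if j ≤ n then tt else 1) *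
      (x (n + 1)).1 j * (if j ≤ n then tt else 1)⁻¹)⁻¹ := by
    intro n j
    exact congrArg (fun z : evc => z.1 j) (hx n)
  have hs : ∀ n j, Equiv.Perm.sign ((x n).1 j) = 1 := by
    intro n j; rw [hc]; exact s3_a _ _
  have hd : ∀ d n, (x n).1 (n + d) = mm ^ (d + 1) := by
    intro d
    induction d with
    | zero => intro n; rw [hc, if_pos (by omega), s3_b _ (hs _ _)]; simp
    | succ d ih =>
      intro n
      rw [hc, if_neg (by omega), s3_c _ (hs _ _), show n + (d + 1) = n + 1 + d by omega, ih,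
        ← pow_succ']
  obtain ⟨c, h⟩ := (x 0).2
  obtain ⟨N, hN⟩ := eventually_atTop.mp h
  have h1 := hN N le_rfl
  have h2 := hN (N + 1) (by omega)
  have e1 := hd N 0
  have e2 := hd (N + 1) 0
  simp only [zero_add] at e1 e2
  rw [e1] at h1
  rw [e2, pow_succ, h1] at h2
  have : mm = 1 := by simpa using h2
  revert this; decide

theorem result : ∃ (H : Type) (_ : Group H), (∃ n : ℕ, 0 < n ∧ ∀ h : H, h ^ n = 1) ∧
    ¬ IsUi.{u} H := by
  refine ⟨evc, inferInstance, ⟨6, by norm_num, ?_⟩, ?_⟩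
  · intro h
    apply Subtype.ext
    funext j
    simpa using s3_pow (h.1 j)
  · rintro ⟨G, _, U, hU, f, hf⟩
    let φ : (∀ i, G i) →* evc := f.comp (QuotientGroup.mk' _)
    have hφ : Function.Surjective φ := hf.comp (QuotientGroup.mk'_surjective _)
    obtain ⟨m, hm⟩ := hφ mH
    choose v hv using fun n => hφ (vH n)
    have hcof : ∀ n, {i | n ≤ i} ∈ U := by
      intro n
      rcases U.le_cofinite_or_eq_pure with h | ⟨a, ha⟩
      · apply h
        rw [Nat.cofinite_eq_atTop]
        exact mem_atTop n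
      · exact absurd ha (hU a)
    let x : ℕ → ∀ i, G i := fun n i => back (m i) (fun k => v k i) i (i + 1 - n)
    apply no_sol (fun n => φ (x n))
    intro n
    rw [← hm, ← hv n, ← map_inv, ← map_mul, ← map_mul, ← map_mul, ← map_inv, ← map_mul]
    show f _ = f _
    congr 1
    rw [QuotientGroup.mk'_apply, QuotientGroup.mk'_apply, QuotientGroup.eq]
    refine mem_of_superset (hcof n) ?_
    intro i hi
    simp only [Set.mem_ofPred_eq] at hi
    have e1 : i + 1 - n = (i - n) + 1 := by omega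
    have e2 : i + 1 - (n + 1) = i - n := by omega
    have e3 : i - (i - n) = n := by omega
    simp only [Set.mem_ofPred_eq, Pi.mul_apply, Pi.inv_apply, x, e1, e2, back, e3]
    simp

end Pool.Agent.Results.MP_d8de41_al.NotUi
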